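import Mathlib

/-!
The explicit leading constant `F` of `P n k` (MP_1ce445_co).
-/

namespace Pool.Agent.Work.MP_1ce445_fin

/-- The function whose maximum over `r` gives the constant for `5/8 ≤ c < 2/3`. -/
noncomputable def g (c r : ℝ) : ℝ :=
  ((2 - c - r) ^ 2 + (2 * c - 1 - r) ^ 2 * (2 - c * (2 - 3 * c) / r ^ 2)) / 4

/-- The value of the symmetric system with `m + 1` special factors. -/
noncomputable def V (m : ℕ) (c : ℝ) : ℝ :=
  c * (1 - (c + √(c * (m - (m + 1) * c) / m)) / m) ^ m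

/-- The leading constant. In the last line `m = ⌊1 / (1 - c)⌋` is the natural number with
`1 - 1/m ≤ c < 1 - 1/(m + 1)`. -/
noncomputable def F (c : ℝ) : ℝ :=
  if c ≤ 1 / 7 then max (1 / 27) (max ((1 + 2 * c) ^ 4 / 64) ((1 + 6 * c) ^ 4 / 256))
  else if c ≤ 1 / 6 then ((2 - √(c * (1 - 6 * c))) / 4) ^ 4
  else if c ≤ 1 / 3 then max (1 / 16) (c ^ 2)
  else if 5 / 8 ≤ c ∧ c < 2 / 3 then
    max (1 / 4) (c * sSup (g c '' Set.Icc √((2 - 3 * c) * (2 * c - 1)) √(c * (2 - 3 * c) / 2)))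
  else max ((1 - 1 / (⌊1 / (1 - c)⌋₊ : ℝ)) ^ ⌊1 / (1 - c)⌋₊) (V ⌊1 / (1 - c)⌋₊ c)

end Pool.Agent.Work.MP_1ce445_fin
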