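import Pool.Agent.Work.MP_1ce445_k4.End
import Pool.Agent.Work.MP_1ce445_k6.AllK6
import Pool.Agent.Work.MP_1ce445_lin.COR2
import Pool.Agent.Work.MP_1ce445_s8.End
import Pool.Agent.Work.MP_1ce445_s8.ALW8
import Pool.Agent.Work.MP_1ce445_win.ALW
import Pool.Agent.Work.MP_1ce445_win.UPW

/-!
The upper bound for `1/7 ≤ k / n ≤ 1/6`, without hypotheses.
-/

namespace Pool.Agent.Work.MP_1ce445_fin

theorem h_UPW : Pool.Agent.Work.MP_1ce445_win.Stmt_UPW :=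
  Pool.Agent.Work.MP_1ce445_win.stmt_UPW
    (Pool.Agent.Work.MP_1ce445_win.stmt_ALW Pool.Agent.Work.MP_1ce445_k6.h_KLF
      (Pool.Agent.Work.MP_1ce445_s8.stmt_ALW8 Pool.Agent.Work.MP_1ce445_s8.hALG))
    Pool.Agent.Work.MP_1ce445_lin.stmt_COR2 Pool.Agent.Work.MP_1ce445_k4.h_UPK

end Pool.Agent.Work.MP_1ce445_fin
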