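import Pool.Agent.Work.MP_1ce445_lim.Tools
import Pool.Agent.Work.MP_1ce445_lin.End
import Pool.Agent.Work.MP_1ce445_k4.End
import Pool.Agent.Work.MP_1ce445_s7.End
import Pool.Agent.Work.MP_1ce445_fin.Win
import Pool.Agent.Work.MP_1ce445_low.K4
import Pool.Agent.Work.MP_1ce445_low.PH
import Pool.Agent.Work.MP_1ce445_low.PS
import Pool.Agent.Work.MP_1ce445_low.K4A
import Pool.Agent.Work.MP_1ce445_low.SQ

/-!
The values of the limit function `FF` on `(0, 1/2)`.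
-/

namespace Pool.Agent.Work.MP_1ce445_fin

open Finset Pool.Agent.Work.MP_1ce445_co_56 Pool.Agent.Work.MP_1ce445_lin
open Pool.Agent.Work.MP_1ce445_low Pool.Agent.Work.MP_1ce445_lim

/-- the value below one half -/
noncomputable def Flo (c : ℝ) : ℝ :=
  if c ≤ 1 / 7 then max (1 / 27) (max ((1 + 2 * c) ^ 4 / 64) (((1 + 6 * c) / 4) ^ 4))
  else if c ≤ 1 / 6 then ((2 - √(c * (1 - 6 * c))) / 4) ^ 4
  else if c ≤ 1 / 3 then max (1 / 16) (c ^ 2)
  else c * (c - (√((1 - 2 * c) * (1 - c - (1 - 2 * c))) - (1 - 2 * c)))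

/-- an upper bound for `FF c` from an asymptotic upper bound for `k ≤ c n` -/
theorem FF_le_floor (c b : ℝ) (hc0 : 0 < c) (hc1 : c < 1) (g : ℝ → ℝ)
    (hg : ∀ ε : ℝ, 0 < ε → ∃ δ : ℝ, 0 < δ ∧ ∀ y, c - δ ≤ y → y ≤ c → g y ≤ b + ε)
    (h : ∀ ε : ℝ, 0 < ε → ∃ n0 : ℕ, ∀ n k : ℕ, n0 ≤ n → (k : ℝ) ≤ c * n → c * n - 1 ≤ k →
      (P n k : ℝ) ≤ (g ((k : ℝ) / n) + ε) * (NN n : ℝ) ^ k) : FF c ≤ b := by
  apply le_of_forall_pos_le_add
  intro ε hε
  obtain ⟨δ1, n1, hδ1, h1⟩ := Pool.Agent.Work.MP_1ce445_low.h_LIML c (ε / 3) hc0 hc1 (by linarith)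
  obtain ⟨n2, h2⟩ := h (ε / 3) (by linarith)
  obtain ⟨δ2, hδ2, h3⟩ := hg (ε / 3) (by linarith)
  obtain ⟨n3, hn3⟩ := exists_nat_ge (1 / min δ1 δ2)
  have hm : 0 < min δ1 δ2 := lt_min hδ1 hδ2
  set n := max (max n1 n2) (max n3 2) with hn
  have hn1 : n1 ≤ n := le_trans (le_max_left _ _) (le_max_left _ _)
  have hn2 : n2 ≤ n := le_trans (le_max_right _ _) (le_max_left _ _)
  have hn3' : n3 ≤ n := le_trans (le_max_left _ _) (le_max_right _ _)
  have hn4 : 2 ≤ n := le_trans (le_max_right _ _) (le_max_right _ _)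
  have hnr : (1 / min δ1 δ2) ≤ (n : ℝ) := hn3.trans (by exact_mod_cast hn3')
  have h1n : 1 ≤ min δ1 δ2 * n := by
    rw [div_le_iff₀ hm] at hnr
    linarith
  have hnp : (0 : ℝ) < n := by
    have : 0 < n := by omega
    exact_mod_cast this
  set k := ⌊c * n⌋₊ with hk
  have hcn : 0 ≤ c * (n : ℝ) := by positivity
  have hk1 : (k : ℝ) ≤ c * n := Nat.floor_le hcn
  have hk2 : c * n < k + 1 := Nat.lt_floor_add_one _
  have hm1 : min δ1 δ2 * n ≤ δ1 * n := mul_le_mul_of_nonneg_right (min_le_left _ _) hnp.le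
  have hm2 : min δ1 δ2 * n ≤ δ2 * n := mul_le_mul_of_nonneg_right (min_le_right _ _) hnp.le
  have habs : |(k : ℝ) - c * n| ≤ δ1 * n := by
    rw [abs_le]
    constructor <;> linarith
  have e1 := h1 n k hn1 habs
  have e2 := h2 n k hn2 hk1 (by linarith)
  have e4 : g ((k : ℝ) / n) ≤ b + ε / 3 := by
    apply h3
    · rw [le_div_iff₀ hnp]
      linarith
    · rw [div_le_iff₀ hnp]
      linarith
  have hN : (0 : ℝ) < (NN n : ℝ) := by
    have : 0 < NN n := by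
      show 0 < 2 * (n / 2)
      omega
    exact_mod_cast this
  have hp : (0 : ℝ) < (NN n : ℝ) ^ k := pow_pos hN k
  have e3 := e1.trans e2
  have := le_of_mul_le_mul_right e3 hp
  linarith

/-- the case of a monotone bound -/
theorem FF_le_mono (c : ℝ) (hc0 : 0 < c) (hc1 : c < 1) (g : ℝ → ℝ)
    (hg : ∀ y, 0 ≤ y → y ≤ c → g y ≤ g c)
    (h : ∀ ε : ℝ, 0 < ε → ∃ n0 : ℕ, ∀ n k : ℕ, n0 ≤ n → (k : ℝ) ≤ c * n →
      (P n k : ℝ) ≤ (g ((k : ℝ) / n) + ε) * (NN n : ℝ) ^ k) : FF c ≤ g c := by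
  refine FF_le_floor c (g c) hc0 hc1 g ?_ ?_
  · intro ε hε
    refine ⟨c, hc0, fun y h1 h2 => ?_⟩
    have := hg y (by linarith) h2
    linarith
  · intro ε hε
    obtain ⟨n0, h0⟩ := h ε hε
    exact ⟨n0, fun n k hn hk _ => h0 n k hn hk⟩

/-- a type system of smaller density -/
theorem le_FF' (c v D : ℝ) (hc1 : c < 1) (hD : 1 - c ≤ D) (h : HasVal D v) : v ≤ FF c :=
  le_FF c v (p_SCL D (1 - c) v (by linarith) hD h)

theorem up_small (hU : Pool.Agent.Work.MP_1ce445_s7.Stmt_UPS) (c : ℝ) (h0 : 0 < c)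
    (h1 : c ≤ 1 / 6) : FF c ≤ max (1 / 27) (max ((1 + 2 * c) ^ 4 / 64) (((1 + 6 * c) / 4) ^ 4)) := by
  refine FF_le_mono c h0 (by linarith)
    (fun c => max (1 / 27) (max ((1 + 2 * c) ^ 4 / 64) (((1 + 6 * c) / 4) ^ 4))) ?_ ?_
  · intro y hy hyc
    have e1 : (1 + 2 * y) ^ 4 ≤ (1 + 2 * c) ^ 4 := pow_le_pow_left₀ (by linarith) (by linarith) 4
    have e2 : ((1 + 6 * y) / 4) ^ 4 ≤ ((1 + 6 * c) / 4) ^ 4 :=
      pow_le_pow_left₀ (by linarith) (by linarith) 4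
    exact max_le_max le_rfl (max_le_max (by linarith) e2)
  · intro ε hε
    obtain ⟨n0, hn⟩ := hU ε hε
    refine ⟨n0, fun n k h2 h3 => hn n k h2 ?_⟩
    have : (0 : ℝ) ≤ n := by positivity
    nlinarith

theorem lo_small (c : ℝ) (h0 : 0 < c) (h1 : c ≤ 1 / 7) :
    max (1 / 27) (max ((1 + 2 * c) ^ 4 / 64) (((1 + 6 * c) / 4) ^ 4)) ≤ FF c := by
  refine max_le ?_ (max_le ?_ ?_)
  · exact le_FF c _ (stmt_A27 (1 - c) (by linarith) (by linarith))
  · exact le_FF c _ (stmt_PH c h0 (by linarith))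
  · have h := stmt_K4 c (1 - c) h0 (by linarith) (by linarith) (by linarith) (by linarith)
      (by nlinarith)
    have e : (1 / 4 + 3 * c / 2) ^ 4 = ((1 + 6 * c) / 4) ^ 4 := by ring
    rw [e] at h
    exact le_FF c _ h

theorem up_win (hW : Pool.Agent.Work.MP_1ce445_win.Stmt_UPW) (c : ℝ) (h0 : 1 / 7 < c)
    (h1 : c ≤ 1 / 6) : FF c ≤ ((2 - √(c * (1 - 6 * c))) / 4) ^ 4 := by
  have hcont : Continuous (fun c : ℝ => ((2 - √(c * (1 - 6 * c))) / 4) ^ 4) := by fun_prop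
  refine FF_le_floor c _ (by linarith) (by linarith) (fun c => ((2 - √(c * (1 - 6 * c))) / 4) ^ 4)
    ?_ ?_
  · intro ε hε
    obtain ⟨δ, hδ, hd⟩ := Metric.continuousAt_iff.1 (hcont.continuousAt (x := c)) ε hε
    refine ⟨δ / 2, by linarith, fun y h2 h3 => ?_⟩
    have h4 : dist y c < δ := by
      rw [Real.dist_eq, abs_lt]
      constructor <;> linarith
    have h5 := hd h4
    rw [Real.dist_eq, abs_lt] at h5
    linarith [h5.2]
  · intro ε hε
    obtain ⟨n0, hn⟩ := hW ε hε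
    obtain ⟨n1, hn1⟩ := exists_nat_ge (1 / (c - 1 / 7))
    refine ⟨max n0 n1, fun n k h2 h3 h4 => hn n k (le_trans (le_max_left _ _) h2) ?_ ?_⟩
    · have h5 : (n1 : ℝ) ≤ n := by exact_mod_cast le_trans (le_max_right _ _) h2
      have h6 := hn1.trans h5
      rw [div_le_iff₀ (by linarith)] at h6
      linarith
    · have : (0 : ℝ) ≤ n := by positivity
      nlinarith

theorem lo_win (c : ℝ) (h0 : 1 / 7 ≤ c) (h1 : c ≤ 1 / 6) :
    ((2 - √(c * (1 - 6 * c))) / 4) ^ 4 ≤ FF c := by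
  rcases h1.lt_or_eq with h | h
  · exact le_FF c _ (stmt_PS c h0 h)
  · have e : ((2 - √(c * (1 - 6 * c))) / 4) ^ 4 = 1 / 16 := by
      have : c * (1 - 6 * c) = 0 := by rw [h]; norm_num
      rw [this, Real.sqrt_zero]
      norm_num
    rw [e]
    exact le_FF' c _ (5 / 6) (by linarith) (by linarith) stmt_K4A

theorem up_mid (c : ℝ) (h0 : 0 < c) (h1 : c ≤ 3 / 10) : FF c ≤ max (1 / 16) (c ^ 2) := by
  refine FF_le_mono c h0 (by linarith) (fun c => max (1 / 16) (c ^ 2)) ?_ ?_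
  · intro y hy hyc
    exact max_le_max le_rfl (pow_le_pow_left₀ hy hyc 2)
  · intro ε hε
    obtain ⟨n0, hn⟩ := Pool.Agent.Work.MP_1ce445_k4.h_UPK ε hε
    refine ⟨n0, fun n k h2 h3 => hn n k h2 ?_⟩
    have : (0 : ℝ) ≤ n := by positivity
    nlinarith

theorem up_half (c : ℝ) (h0 : 3 / 10 < c) (h1 : c ≤ 1 / 2) : FF c ≤ Phi c := by
  have hcont : Continuous Phi := stmt_PHI.1
  refine FF_le_floor c _ (by linarith) (by linarith) Phi ?_ ?_
  · intro ε hε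
    obtain ⟨δ, hδ, hd⟩ := Metric.continuousAt_iff.1 (hcont.continuousAt (x := c)) ε hε
    refine ⟨δ / 2, by linarith, fun y h2 h3 => ?_⟩
    have h4 : dist y c < δ := by
      rw [Real.dist_eq, abs_lt]
      constructor <;> linarith
    have h5 := hd h4
    rw [Real.dist_eq, abs_lt] at h5
    linarith [h5.2]
  · intro ε hε
    obtain ⟨n0, hn⟩ := hUP2 ε hε
    obtain ⟨n1, hn1⟩ := exists_nat_ge (1 / (c - 3 / 10))
    refine ⟨max n0 n1, fun n k h2 h3 h4 => hn n k (le_trans (le_max_left _ _) h2) ?_ ?_⟩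
    · have h5 : (n1 : ℝ) ≤ n := by exact_mod_cast le_trans (le_max_right _ _) h2
      have h6 := hn1.trans h5
      rw [div_le_iff₀ (by linarith)] at h6
      linarith
    · have : (0 : ℝ) ≤ n := by positivity
      nlinarith

/-- a lower bound for `FF c` from an asymptotic lower bound for `k ≤ c n` -/
theorem le_FF_floor (c b : ℝ) (hc0 : 0 < c) (hc1 : c < 1) (g : ℝ → ℝ)
    (hg : ∀ ε : ℝ, 0 < ε → ∃ δ : ℝ, 0 < δ ∧ ∀ y, c - δ ≤ y → y ≤ c → b - ε ≤ g y)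
    (h : ∀ ε : ℝ, 0 < ε → ∃ n0 : ℕ, ∀ n k : ℕ, n0 ≤ n → (k : ℝ) ≤ c * n → c * n - 1 ≤ k →
      (g ((k : ℝ) / n) - ε) * (NN n : ℝ) ^ k ≤ (P n k : ℝ)) : b ≤ FF c := by
  apply le_of_forall_pos_le_add
  intro ε hε
  obtain ⟨δ1, n1, hδ1, h1⟩ := Pool.Agent.Work.MP_1ce445_low.h_LIMU c (ε / 3) hc0 hc1 (by linarith)
  obtain ⟨n2, h2⟩ := h (ε / 3) (by linarith)
  obtain ⟨δ2, hδ2, h3⟩ := hg (ε / 3) (by linarith)
  obtain ⟨n3, hn3⟩ := exists_nat_ge (1 / min δ1 δ2)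
  have hm : 0 < min δ1 δ2 := lt_min hδ1 hδ2
  set n := max (max n1 n2) (max n3 2) with hn
  have hn1 : n1 ≤ n := le_trans (le_max_left _ _) (le_max_left _ _)
  have hn2 : n2 ≤ n := le_trans (le_max_right _ _) (le_max_left _ _)
  have hn3' : n3 ≤ n := le_trans (le_max_left _ _) (le_max_right _ _)
  have hn4 : 2 ≤ n := le_trans (le_max_right _ _) (le_max_right _ _)
  have hnr : (1 / min δ1 δ2) ≤ (n : ℝ) := hn3.trans (by exact_mod_cast hn3')
  have h1n : 1 ≤ min δ1 δ2 * n := by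
    rw [div_le_iff₀ hm] at hnr
    linarith
  have hnp : (0 : ℝ) < n := by
    have : 0 < n := by omega
    exact_mod_cast this
  set k := ⌊c * n⌋₊ with hk
  have hcn : 0 ≤ c * (n : ℝ) := by positivity
  have hk1 : (k : ℝ) ≤ c * n := Nat.floor_le hcn
  have hk2 : c * n < k + 1 := Nat.lt_floor_add_one _
  have hm1 : min δ1 δ2 * n ≤ δ1 * n := mul_le_mul_of_nonneg_right (min_le_left _ _) hnp.le
  have hm2 : min δ1 δ2 * n ≤ δ2 * n := mul_le_mul_of_nonneg_right (min_le_right _ _) hnp.le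
  have habs : |(k : ℝ) - c * n| ≤ δ1 * n := by
    rw [abs_le]
    constructor <;> linarith
  have e1 := h1 n k hn1 habs
  have e2 := h2 n k hn2 hk1 (by linarith)
  have e4 : b - ε / 3 ≤ g ((k : ℝ) / n) := by
    apply h3
    · rw [le_div_iff₀ hnp]
      linarith
    · rw [div_le_iff₀ hnp]
      linarith
  have hN : (0 : ℝ) < (NN n : ℝ) := by
    have : 0 < NN n := by
      show 0 < 2 * (n / 2)
      omega
    exact_mod_cast this
  have hp : (0 : ℝ) < (NN n : ℝ) ^ k := pow_pos hN k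
  have e3 := e2.trans e1
  have := le_of_mul_le_mul_right e3 hp
  linarith

theorem lo_half (c : ℝ) (h0 : 3 / 10 < c) (h1 : c ≤ 1 / 2) : Phi c ≤ FF c := by
  have hcont : Continuous Phi := stmt_PHI.1
  refine le_FF_floor c _ (by linarith) (by linarith) Phi ?_ ?_
  · intro ε hε
    obtain ⟨δ, hδ, hd⟩ := Metric.continuousAt_iff.1 (hcont.continuousAt (x := c)) ε hε
    refine ⟨δ / 2, by linarith, fun y h2 h3 => ?_⟩
    have h4 : dist y c < δ := by
      rw [Real.dist_eq, abs_lt]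
      constructor <;> linarith
    have h5 := hd h4
    rw [Real.dist_eq, abs_lt] at h5
    linarith [h5.1]
  · intro ε hε
    obtain ⟨n0, hn⟩ := hLOW2 ε hε
    obtain ⟨n1, hn1⟩ := exists_nat_ge (1 / (c - 3 / 10))
    refine ⟨max n0 n1, fun n k h2 h3 h4 => hn n k (le_trans (le_max_left _ _) h2) ?_ ?_⟩
    · have h5 : (n1 : ℝ) ≤ n := by exact_mod_cast le_trans (le_max_right _ _) h2
      have h6 := hn1.trans h5
      rw [div_le_iff₀ (by linarith)] at h6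
      linarith
    · have : (0 : ℝ) ≤ n := by positivity
      nlinarith

theorem lo_mid (c : ℝ) (h0 : 1 / 6 ≤ c) (h1 : c ≤ 1 / 3) : max (1 / 16) (c ^ 2) ≤ FF c :=
  max_le (le_FF' c _ (5 / 6) (by linarith) (by linarith) stmt_K4A)
    (le_FF c _ (stmt_SQ c (by linarith) h1))

/-- The values of `FF` below one half. -/
theorem FF_eq_Flo_aux (hU : Pool.Agent.Work.MP_1ce445_s7.Stmt_UPS)
    (hW : Pool.Agent.Work.MP_1ce445_win.Stmt_UPW) (c : ℝ) (h0 : 0 < c) (h1 : c ≤ 1 / 2) :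
    FF c = Flo c := by
  unfold Flo
  split_ifs with a1 a2 a3
  · exact le_antisymm (up_small hU c h0 (by linarith)) (lo_small c h0 a1)
  · push Not at a1
    exact le_antisymm (up_win hW c a1 a2) (lo_win c a1.le a2)
  · push Not at a2
    refine le_antisymm ?_ (lo_mid c a2.le a3)
    rcases le_or_gt c (3 / 10) with h | h
    · exact up_mid c h0 h
    · have e := up_half c h h1
      rw [stmt_PHI.2.2.1 c h0.le a3] at e
      exact e.trans (le_max_right _ _)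
  · push Not at a3
    have e : c * (c - (√((1 - 2 * c) * (1 - c - (1 - 2 * c))) - (1 - 2 * c))) = Phi c := by
      rw [(stmt_PHI.2.2.2.1 c a3.le h1).1]
      have e1 : (1 - 2 * c) * (1 - c - (1 - 2 * c)) = c * (1 - 2 * c) := by ring
      rw [e1]
      ring
    rw [e]
    exact le_antisymm (up_half c (by linarith) h1) (lo_half c (by linarith) h1)

/-- The values of `FF` below one half. -/
theorem FF_eq_Flo (c : ℝ) (h0 : 0 < c) (h1 : c ≤ 1 / 2) : FF c = Flo c :=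
  FF_eq_Flo_aux Pool.Agent.Work.MP_1ce445_s7.hUPS h_UPW c h0 h1

end Pool.Agent.Work.MP_1ce445_fin
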