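import Pool.Agent.Work.MP_1ce445_fin.Final
import Pool.Agent.Work.MP_1ce445_fin.Low

set_option autoImplicit false

/-!
The final theorem of MP_1ce445_co without hypotheses: the explicit leading constant of `P n k`.
-/

namespace Pool.Agent.Work.MP_1ce445_fin

open Pool.Agent.Work.MP_1ce445_co_56 Pool.Agent.Work.MP_1ce445_low

/-- The limit function is the explicit function `F`. -/
theorem FF_eq_F (c : ℝ) (h0 : 0 < c) (h1 : c < 1) : FF c = F c :=
  FF_eq_F_of (fun c h0 h1 => FF_eq_Flo c h0 h1.le) c h0 h1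

/-- The final theorem. -/
theorem final (ε : ℝ) (hε : 0 < ε) :
    ∃ R n0 : ℕ, ∀ n k : ℕ, n0 ≤ n → 3 ≤ k → k + R ≤ n →
      |(P n k : ℝ) / (F ((k : ℝ) / n) * ((2 * (n / 2) : ℕ) : ℝ) ^ k) - 1| ≤ ε :=
  final_rel FF_eq_F ε hε

end Pool.Agent.Work.MP_1ce445_fin
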