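import Pool.Agent.Work.MP_1ce445_fin.Defs
import Pool.Agent.Work.MP_1ce445_winu.WINALL

set_option autoImplicit false

/-!
The explicit constant `F` and the two pieces `Flo`, `Fhi` of the proof (MP_1ce445_co).
-/

namespace Pool.Agent.Work.MP_1ce445_fin

open Pool.Agent.Work.MP_1ce445_hub Pool.Agent.Work.MP_1ce445_hub2 Pool.Agent.Work.MP_1ce445_winu

theorem hubSym_eq (m : ℕ) (c : ℝ) (hm : 0 < m) : hubSym m c = V m c := by
  have hm' : (0 : ℝ) < m := by exact_mod_cast hm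
  unfold hubSym V
  have e1 : (((m : ℝ) + 1) * (1 - c) - 1) * (1 - c - (((m : ℝ) + 1) * (1 - c) - 1) / m)
      = c * (m - (m + 1) * c) / m := by
    field_simp
    ring
  rw [e1]
  congr 2
  field_simp
  ring

theorem floor_one {c : ℝ} (h1 : 0 ≤ c) (h2 : c < 1 / 2) : ⌊1 / (1 - c)⌋₊ = 1 := by
  rw [Nat.floor_eq_iff (by apply div_nonneg <;> linarith)]
  constructor
  · rw [Nat.cast_one, le_div_iff₀ (by linarith)]
    linarith
  · rw [Nat.cast_one, div_lt_iff₀ (by linarith)]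
    linarith

theorem floor_two {c : ℝ} (h1 : 1 / 2 ≤ c) (h2 : c < 2 / 3) : ⌊1 / (1 - c)⌋₊ = 2 := by
  rw [Nat.floor_eq_iff (by apply div_nonneg <;> linarith)]
  constructor
  · rw [Nat.cast_ofNat, le_div_iff₀ (by linarith)]
    linarith
  · rw [Nat.cast_ofNat, div_lt_iff₀ (by linarith)]
    linarith

theorem V_one {c : ℝ} (h1 : 0 ≤ c) (h2 : c < 1 / 2) :
    max ((1 - 1 / ((1 : ℕ) : ℝ)) ^ 1) (V 1 c) = c * (1 - c - √(c * (1 - 2 * c))) := by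
  have e : V 1 c = c * (1 - c - √(c * (1 - 2 * c))) := by
    unfold V
    have e1 : c * (((1 : ℕ) : ℝ) - (((1 : ℕ) : ℝ) + 1) * c) / ((1 : ℕ) : ℝ) = c * (1 - 2 * c) := by
      push_cast; ring
    rw [e1]
    push_cast
    ring
  rw [e]
  have hs : √(c * (1 - 2 * c)) ≤ 1 - c := by
    apply Real.sqrt_le_iff.2 ⟨by linarith, ?_⟩
    nlinarith [sq_nonneg (c - 1 / 2)]
  have h0 : ((1 : ℝ) - 1 / ((1 : ℕ) : ℝ)) ^ 1 = 0 := by norm_num
  rw [h0]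
  exact max_eq_right (mul_nonneg h1 (by linarith))

theorem V_two {c : ℝ} (h1 : 1 / 2 ≤ c) (h2 : c < 5 / 8) :
    max ((1 - 1 / ((2 : ℕ) : ℝ)) ^ 2) (V 2 c) = 1 / 4 := by
  have e : V 2 c = c / 4 * (2 - c - √(c * (2 - 3 * c) / 2)) ^ 2 := by
    unfold V
    have e1 : c * (((2 : ℕ) : ℝ) - (((2 : ℕ) : ℝ) + 1) * c) / ((2 : ℕ) : ℝ) = c * (2 - 3 * c) / 2 := by
      push_cast; ring
    rw [e1]
    push_cast
    ring
  rw [base2, e]
  apply max_eq_left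
  set s := √(c * (2 - 3 * c) / 2) with hs
  have h3 : 197 / 1000 ≤ s := by
    apply Real.le_sqrt_of_sq_le
    nlinarith
  have h4 : s ≤ 1 := by
    apply Real.sqrt_le_one.mpr
    nlinarith
  have h5 : (2 - c - s) ^ 2 ≤ (2 - c - 197 / 1000) ^ 2 := by
    apply pow_le_pow_left₀ (by linarith)
    linarith
  have h6 : c * (2 - c - 197 / 1000) ^ 2 ≤ 1 := by
    nlinarith [sq_nonneg (c - 601 / 1000), mul_nonneg (by linarith : (0 : ℝ) ≤ c) (sq_nonneg (c - 601 / 1000))]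
  have h7 : c / 4 * (2 - c - s) ^ 2 ≤ c / 4 * (2 - c - 197 / 1000) ^ 2 :=
    mul_le_mul_of_nonneg_left h5 (by linarith)
  linarith

/-- the explicit constant on `[1/2, 1)` -/
theorem Fhi_eq (c : ℝ) (h1 : 1 / 2 ≤ c) (h2 : c < 1) : Fhi c = F c := by
  unfold Fhi F
  rw [if_neg (by linarith : ¬ c ≤ 1 / 7), if_neg (by linarith : ¬ c ≤ 1 / 6),
    if_neg (by linarith : ¬ c ≤ 1 / 3)]
  by_cases h3 : c < 5 / 8
  · rw [if_pos h3, if_neg (by intro h; linarith [h.1] : ¬ (5 / 8 ≤ c ∧ c < 2 / 3)), floor_two h1 (by linarith),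
      V_two h1 h3]
  · rw [if_neg h3]
    by_cases h4 : c < 2 / 3
    · rw [if_pos h4, if_pos (⟨not_lt.1 h3, h4⟩ : 5 / 8 ≤ c ∧ c < 2 / 3)]
      rfl
    · rw [if_neg h4, if_neg (fun h => h4 h.2 : ¬ (5 / 8 ≤ c ∧ c < 2 / 3))]
      obtain ⟨ha, -, -⟩ := level c (not_lt.1 h4) h2
      rw [hubSym_eq _ _ (by omega)]

/-- the explicit constant on `(0, 1/2)`, in the form of the proof -/
noncomputable def Flo' (c : ℝ) : ℝ :=
  if c ≤ 1 / 7 then max (1 / 27) (max ((1 + 2 * c) ^ 4 / 64) (((1 + 6 * c) / 4) ^ 4))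
  else if c ≤ 1 / 6 then ((2 - √(c * (1 - 6 * c))) / 4) ^ 4
  else if c ≤ 1 / 3 then max (1 / 16) (c ^ 2)
  else c * (c - (√((1 - 2 * c) * (1 - c - (1 - 2 * c))) - (1 - 2 * c)))

theorem Flo_eq (c : ℝ) (h1 : 0 ≤ c) (h2 : c < 1 / 2) : Flo' c = F c := by
  unfold Flo' F
  have e1 : ((1 + 6 * c) / 4) ^ 4 = (1 + 6 * c) ^ 4 / 256 := by ring
  have e2 : (1 - 2 * c) * (1 - c - (1 - 2 * c)) = c * (1 - 2 * c) := by ring
  rw [e1, e2, if_neg (by intro h; linarith [h.1] : ¬ (5 / 8 ≤ c ∧ c < 2 / 3)), floor_one h1 h2, V_one h1 h2]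
  split_ifs
  · rfl
  · rfl
  · rfl
  · ring

end Pool.Agent.Work.MP_1ce445_fin
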