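import Pool.Agent.Work.MP_1ce445_fin.Eq
import Pool.Agent.Work.MP_1ce445_lim.End
import Pool.Agent.Work.MP_1ce445_winu.End

set_option autoImplicit false

/-!
The explicit constant on `(0, 1)` and the final theorem (MP_1ce445_co), from the values below one half.
-/

namespace Pool.Agent.Work.MP_1ce445_fin

open Pool.Agent.Work.MP_1ce445_co_56 Pool.Agent.Work.MP_1ce445_low Pool.Agent.Work.MP_1ce445_lim
open Pool.Agent.Work.MP_1ce445_winu

/-- `FF = F` on `(0, 1)`, from the values on `(0, 1/2)`. -/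
theorem FF_eq_F_of (hlo : ∀ c : ℝ, 0 < c → c < 1 / 2 → FF c = Flo' c) (c : ℝ) (h0 : 0 < c) (h1 : c < 1) :
    FF c = F c := by
  rcases lt_or_ge c (1 / 2) with h | h
  · rw [hlo c h0 h, Flo_eq c h0.le h]
  · rw [FF_eq_high c h h1, Fhi_eq c h h1]

/-- `FF` is at least `1/27`. -/
theorem FF_ge (c : ℝ) (h0 : 0 < c) (h1 : c < 1) : 1 / 27 ≤ FF c := by
  unfold FF
  exact le_csSup ⟨1, fun w hw => (stmt_VAL _ _ hw).2⟩ (stmt_A27 (1 - c) (by linarith) (by linarith))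

/-- The final theorem from `FF = F` on `(0, 1)`, absolute form. -/
theorem final_abs (hF : ∀ c : ℝ, 0 < c → c < 1 → FF c = F c) (ε : ℝ) (hε : 0 < ε) :
    ∃ R n0 : ℕ, ∀ n k : ℕ, n0 ≤ n → 3 ≤ k → k + R ≤ n →
      1 / 27 ≤ F ((k : ℝ) / n) ∧
      |(P n k : ℝ) / ((2 * (n / 2) : ℕ) : ℝ) ^ k - F ((k : ℝ) / n)| ≤ ε := by
  obtain ⟨R, n0, h⟩ := lim_final.1 ε hε
  refine ⟨R + 1, n0, fun n k hn hk hkR => ?_⟩
  have hkn : k < n := by omega
  have hn' : (0 : ℝ) < n := by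
    have : 0 < n := by omega
    exact_mod_cast this
  have hk' : (0 : ℝ) < k := by
    have : 0 < k := by omega
    exact_mod_cast this
  have hkn' : (k : ℝ) < n := by exact_mod_cast hkn
  have ha : (0 : ℝ) < (k : ℝ) / n := div_pos hk' hn'
  have hb : (k : ℝ) / n < 1 := (div_lt_one hn').2 hkn'
  have h1 := h n k hn hk (by omega)
  rw [← FF_eq, hF _ ha hb] at h1
  refine ⟨?_, h1⟩
  rw [← hF _ ha hb]
  exact FF_ge _ ha hb

/-- The final theorem from `FF = F` on `(0, 1)`, relative form. -/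
theorem final_rel (hF : ∀ c : ℝ, 0 < c → c < 1 → FF c = F c) (ε : ℝ) (hε : 0 < ε) :
    ∃ R n0 : ℕ, ∀ n k : ℕ, n0 ≤ n → 3 ≤ k → k + R ≤ n →
      |(P n k : ℝ) / (F ((k : ℝ) / n) * ((2 * (n / 2) : ℕ) : ℝ) ^ k) - 1| ≤ ε := by
  obtain ⟨R, n0, h⟩ := final_abs hF (ε / 27) (by positivity)
  refine ⟨R, max n0 2, fun n k hn hk hkR => ?_⟩
  obtain ⟨h1, h2⟩ := h n k (le_trans (le_max_left _ _) hn) hk hkR
  have hN : 0 < 2 * (n / 2) := by
    have := le_trans (le_max_right n0 2) hn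
    omega
  have hN' : (0 : ℝ) < ((2 * (n / 2) : ℕ) : ℝ) := by exact_mod_cast hN
  have hp : (0 : ℝ) < ((2 * (n / 2) : ℕ) : ℝ) ^ k := pow_pos hN' k
  set A : ℝ := F ((k : ℝ) / n) with hA
  have hA0 : 0 < A := by linarith
  have e : (P n k : ℝ) / (A * ((2 * (n / 2) : ℕ) : ℝ) ^ k) - 1 =
      ((P n k : ℝ) / ((2 * (n / 2) : ℕ) : ℝ) ^ k - A) / A := by
    field_simp
  rw [e, abs_div, abs_of_pos hA0, div_le_iff₀ hA0]
  refine h2.trans ?_
  have : ε / 27 = ε * (1 / 27) := by ring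
  rw [this]
  exact mul_le_mul_of_nonneg_left h1 hε.le

end Pool.Agent.Work.MP_1ce445_fin
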